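import Pool.Agent.N202.TB.Bridge2

/-!
# The Mumford-Tate conjecture for all powers of a variety is decided by four factors

Let `X` be a polarised smooth projective variety over a finitely generated field of characteristic
zero such that (`OfAbelianType`)

* the Hodge classes on the powers of `X` are Tate classes (Deligne, André: true if `X` is an abelian
  variety, or if the motive of `X` is of abelian type, for example for K3 surfaces);
* the action of the Galois group by conjugation on the endomorphisms of the `ℓ`-adic cohomology of
  `X` is semisimple (Faltings);
* the centre of the Lie algebra of the Hodge group of `X` kills the Tate classes on the powers of `X`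
  (that is, it is contained in the Lie algebra of the image of Galois: Vasiu, Ullmo and Yafaev).

We prove that the Mumford-Tate conjecture holds for all powers of `X` if and only if all Tate
classes on the **fourth power** of `X` are combinations of Hodge classes. If the cohomology algebra of
`X` is generated by the classes of degree `i`, or if the Lie algebra of the Hodge group acts
faithfully on the cohomology of degree `i`, then it suffices to consider the Tate classes of
codimension `2 i` on the fourth power. For an abelian variety `A` (`i = 1`): the Mumford-Tate
conjecture for `A` holds if and only if the Tate classes of **codimension two** on `A^4` are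
combinations of Hodge classes; for K3 surfaces and similar varieties `i = 2`.

**The setting.** `𝒱`, `ops`: a class of varieties with algebraic cycles; `S : Theory ops` consists of a
Weil cohomology theory `H` with rational coefficients and a Hodge decomposition of `ℂ ⊗ H`
(`X ↦ H(X(ℂ), ℚ)`), a prime `ℓ` and an action of a group `Γ` (the Galois group) on `ℚ_ℓ ⊗ H` with its
formal properties. `pw X n` is the product of `n + 1` copies of `X`. `MumfordTate S Y`: the Tate
classes on `Y` are the combinations of the Hodge classes on `Y` (Tate classes are fixed, after the
twist, by an open subgroup of the Galois group). Since the groups in question are reductive and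
determined by their invariants in tensors, this property for all powers of `X` is the equality of the
Lie algebras of the two groups.

**The proof.** Let `𝔥` be the Lie algebra of the Hodge group over `ℚ_ℓ` (the endomorphisms `y` of
`ℚ_ℓ ⊗ H(X)` which kill all Hodge classes on the powers) and `𝔤` the span of the twisted `ℓ`-adic
logarithms `log ρ(u) - (log χ(u) / 2) deg` of the elements `u` of a small open subgroup. A class is
a Tate class if and only if it is killed by `𝔤`; so `𝔤 ⊆ 𝔥`. By semisimplicity there is a projector
`π` of the space of endomorphisms (of the block of degree `i`) onto `𝔤` which commutes with the
adjoint action of `𝔤`. With the polarisation `π` becomes a Tate class on `X^4`. If it is a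
combination of Hodge classes then `π` commutes with `𝔥`; hence `𝔤` is an ideal of `𝔥`, and for `y` in
`𝔥` the element `y - π(y)` commutes with `𝔤`. Such an element gives a Tate class on `X^2` (and on
`X^4`), hence it commutes with `𝔥`, and by the assumption on the centre it kills all Tate classes.
So all elements of `𝔥` kill all Tate classes, and then Tate classes are combinations of Hodge
classes.
-/

open CategoryTheory AlgebraicGeometry
open Pool.Agent.H914 Pool.Agent.H914.VarClass Pool.Agent.H914.VarClass.Obj
open Pool.Agent.Y133.Half (pw)
open Pool.Agent.N202.TB.Th

universe u

namespace Pool.Agent.Results.MP_c1bb77_ag.FourFactorsDecide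

/-- **The Mumford-Tate conjecture for all powers is decided by the fourth power**, and for abelian
varieties by the Tate classes of codimension two on the fourth power. -/
theorem result {k : Type u} [Field k] {𝒱 : VarClass k} {ops : CycleOps 𝒱} (S : Theory ops)
    (X : 𝒱.Obj) (ψ : Form S X) (hψ : IsPolarisation ψ) (h : OfAbelianType S X) :
    ((∀ n, MumfordTate S (pw X n)) ↔ TateIsHodge S (pw X 3)) ∧
      ∀ i, Determines S X i →
        ((∀ n, MumfordTate S (pw X n)) ↔ TateIsHodgeIn S (pw X 3) (2 * i)) :=
  four hψ h

end Pool.Agent.Results.MP_c1bb77_ag.FourFactorsDecide
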