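import Pool.Agent.N211.SM.Fin

/-!
# The Mumford-Tate conjecture is decided on the product of a small power with a CM abelian variety

`X` is a smooth projective variety over a number field, `Γ` the absolute Galois group, `P` the
polarised Hodge structure `H(X(ℂ), ℚ)`, in a homogeneous basis, `ρ` the Galois representation on
`H(X, ℚ_ℓ)` in the same basis (comparison theorem), `χ` the character of `ℚ_ℓ(-1)`. `A` is an abelian
variety with complex multiplication whose cohomology contains the duals of the lines in the
`H^d(X^r, ℂ)`, `r ≤ K`, which are stable under subgroups of finite index of `Γ`; `P'`, `ρ'` are the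
same data for `A`. Let `K ≥ 4` be at least as large as every Betti number `b_m(X)`.

If on `X^K × A` the Hodge classes are Tate classes and the Tate classes are combinations of Hodge
classes, then all `H^m(X, ℚ_ℓ)` are semisimple Galois representations, and on all powers of `X` the
Hodge classes are Tate classes and the Tate classes are combinations of Hodge classes. So the
identity component of the `ℓ`-adic monodromy group is the Mumford-Tate group.

The proof. (1) Let `S` be a stable subspace of `H^m(X)`. The line `det S` is in `H(X^r)`, `r = dim S`.
Its product with a dual line in `H(A)` is a Tate class, so it is a combination of Hodge classes, and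
the polarisation gives an equivariant functional which does not vanish on `det S`; so `S` has a
stable complement. (2) Let `g` be the Lie algebra of the Galois group (made homogeneous) and let `h`
be the Lie algebra of the Hodge group. By (1) and Cartan's criterion the trace form of `H(X)` is
nondegenerate on `[g, g]`, and the orthogonal projector to `[g, g]` is a Tate class on `X^4`; so it
commutes with `h`. With positivity on the side of `h` this shows that `g` and `h` are equal up to
the centres. (3) The centres act on the images of the idempotents of the centre of the algebra of
endomorphisms; the determinants of these images have duals in `H(A)`, and the products are Tate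
classes and combinations of Hodge classes on `X^r × A`; as Hodge classes and Tate classes agree on
the powers of `A`, the two centres give the same relations.
-/

namespace Pool.Agent.Results.MP_c1bb77_ag.ProductDecides

open Pool.Agent.N202.NC Pool.Agent.N211.SM

/-- **The Mumford-Tate conjecture for all powers of `X` from the product `X^K × A`.** -/
theorem result (ι ι' : Type) [Fintype ι] [DecidableEq ι] [Fintype ι'] [DecidableEq ι']
    (P : HodgeStructure ι) (P' : HodgeStructure ι') (Γ : Type) [Group Γ] (ℓ : ℕ) [Fact ℓ.Prime]
    (ρ : Γ →* Matrix ι ι ℚ_[ℓ]) (ρ' : Γ →* Matrix ι' ι' ℚ_[ℓ]) (χ : Γ →* ℚ_[ℓ])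
    (j : ℚ_[ℓ] →+* ℂ) (K : ℕ) :
    GaloisRep P.deg ρ χ → GaloisRep P'.deg ρ' χ → 4 ≤ K → (∀ m, betti P.deg m ≤ K) →
    IsCMFactor P P' ρ ρ' χ j K →
    HodgeInTateOn P P' ρ ρ' χ K → TateInHodgeOn P P' ρ ρ' χ K →
    SemisimpleH P.deg ρ ∧ ∀ k, 0 < k → HodgeInTate P ρ χ k ∧ TateInHodge P ρ χ k :=
  product P P' ρ ρ' χ j K

end Pool.Agent.Results.MP_c1bb77_ag.ProductDecides
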