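import Mathlib
import Pool.Agent.R932.SumDens

/-!
# Sums with motives of abelian type at 100 percent of the primes `ℓ`, even rank

`V` is a rational Hodge structure of abelian type (the Lie algebra of its Mumford-Tate group has only
the Hodge types `(-1,1)`, `(0,0)`, `(1,-1)`; by Deligne this holds for all `V` in the tensor category
generated by the `H^1` of abelian varieties) with the Galois representations `α_ℓ`, and `T` is a
polarised rational Hodge structure of level two (for example the transcendental part of `H^2(X)(1)`)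
of rank `n = 2 p + q`, with the Hodge numbers `(p, q, p)`, no endomorphisms besides the rational
scalars, `p ≥ 2` and `2 p^2 (p^2 + 1) < (q - 2 p) (q + p)` (for example `p = 2`, `q ≥ 9`). `Γ` is the
Galois group of a field `k` which is finitely generated over `ℚ`, `K` a number field, and `s : G_K → Γ`
the homomorphism given by a closed point of a model (if `k` is a number field, then `K = k` and `s`
is the identity). `Γ` preserves the form of `T`, and at the places `v` of `K` of good reduction the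
characteristic polynomial `P_v` of the geometric Frobenius on `T` has rational coefficients which do
not depend on `ℓ`.

**Theorem.** Suppose that
(1) at some place `v₀` of good reduction the roots of `P_{v₀}` are simple and there are no relations of
the form `x w = z y` between four of them (`x ≠ y`) except for `z = x`, `w = y` and for `z y = w x = 1`;
(2) `u_0, ..., u_m` are places at which the roots of `P_{u_i}` are simple and no quotient of
different roots is a root of unity, and for every `g` in `Gal(ℚ)` and every `d` with `0 < d < n`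
there are a place `v` of this kind and an element `w` of `Gal(ℚ)` which agrees with `g` on
the intersection of the splitting fields of the `P_{u_i}` such that no set of `d` roots of `P_v` is
stable under `w`;
(3) for every `g` in `Gal(ℚ)` there are such `v` and `w` such that `w` fixes a root of `P_v`;
(4) at some place `v₂` of good reduction some root `x` of `P_{v₂}` has no positive power in the
multiplicative group generated by the roots of `R`, the characteristic polynomial of Frobenius at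
`v₂` on `V`.
Then for all prime numbers `ℓ` outside a set of natural density zero the Mumford-Tate conjecture for
`V ⊕ T` at `ℓ` is equivalent to the Mumford-Tate conjecture for `V` at `ℓ`.

For example, if `X` is a surface with `H^2(X)(1) = N ⊕ T`, and `V = H^0 ⊕ H^1 ⊕ H^3 ⊕ H^4 ⊕ N`, then at
100 percent of the primes `ℓ` the Mumford-Tate conjecture for the whole cohomology of `X` follows
from (is equivalent to) the conjecture for the Albanese variety.

The rank `n` is even by (2) (for odd `n` there is a rational root); for odd rank there is the theorem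
`SumsDensityOneOdd` in this folder, with other conditions on the places.  If two of the splitting fields of
the `P_{u_i}` are linearly disjoint over `ℚ`, then (3) is void and it is enough for (2) to have one place where
the Galois group of `P_v` contains a cycle of length `n`.

The proof puts together two parts of the library `Pool.Agent.R932` (by the earlier version of this team), the
theorem `mt_even`, which was not used in an earlier hand-in, and `density_sum`: (1), (2), (3) give
the conjecture for `T` at 100 percent of the `ℓ`. By (4) there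
is a homomorphism from the multiplicative group to the additive group of the field which kills the
eigenvalues on `V` and not `x`; it gives an element of the Lie algebra of the Zariski closure which is
zero on `V` and nonzero on `T`. The elements of this kind form an ideal of the simple Lie algebra
`so(T)`, so the monodromy group contains `1 × SO(T)`. By the theorem on sums in the starting files the
same holds for the Mumford-Tate group.
-/

set_option autoImplicit false

namespace Pool.Agent.Results.MP_c1bb77_ag.SumsDensityOneEven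

open MvPolynomial Matrix Filter Topology NumberField IsDedekindDomain
open Pool.Agent.W544.PG (HS)

noncomputable section

section groups

variable {ι : Type} [Fintype ι] [DecidableEq ι]

/-- The value of a rational polynomial in the entries at a matrix. -/
def value {R : Type} [CommRing R] [Algebra ℚ R] (g : Matrix ι ι R)
    (f : MvPolynomial (ι × ι) ℚ) : R :=
  aeval (fun q : ι × ι => g q.1 q.2) f

/-- `G` is the set of complex points of an algebraic subgroup over `ℚ` of the general linear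
group. -/
def IsQGroup (G : Set (Matrix ι ι ℂ)) : Prop :=
  (∃ P : Set (MvPolynomial (ι × ι) ℚ), ∀ g, g ∈ G ↔ g.det ≠ 0 ∧ ∀ f ∈ P, value g f = 0) ∧
  1 ∈ G ∧ (∀ a ∈ G, ∀ b ∈ G, a * b ∈ G) ∧ ∀ a ∈ G, a⁻¹ ∈ G

/-- The complex points of the Mumford-Tate group: the smallest algebraic subgroup over `ℚ` which
contains `h z` for all `z`. -/
def mumfordTate (h : ℂ → Matrix ι ι ℂ) : Set (Matrix ι ι ℂ) :=
  {g | ∀ G, IsQGroup G → (∀ z, z ≠ 0 → h z ∈ G) → g ∈ G}

/-- The points of the Mumford-Tate group over a field `R`. -/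
def InMumfordTate {R : Type} [Field R] [Algebra ℚ R] (h : ℂ → Matrix ι ι ℂ)
    (g : Matrix ι ι R) : Prop :=
  ∀ f : MvPolynomial (ι × ι) ℚ, (∀ m ∈ mumfordTate h, value m f = 0) → value g f = 0

/-- The Lie algebra of the Mumford-Tate group (over the complex numbers): the tangent space at
`1`. -/
def lieMumfordTate (h : ℂ → Matrix ι ι ℂ) : Set (Matrix ι ι ℂ) :=
  {y | ∀ f : MvPolynomial (ι × ι) ℚ, (∀ m ∈ mumfordTate h, value m f = 0) →
    ∑ x : ι × ι, y x.1 x.2 * value (1 : Matrix ι ι ℂ) (pderiv x f) = 0}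

variable {ℓ : ℕ} [Fact ℓ.Prime] {Γ : Type} [Group Γ]

/-- The points of the identity component of the Zariski closure of `ρ(Γ)` over the algebraic
closure of `ℚ_ℓ`: a polynomial that vanishes on the image of a subgroup of finite index vanishes
at `g`. -/
def InMonodromy (ρ : Γ →* Matrix ι ι ℚ_[ℓ]) (g : Matrix ι ι (AlgebraicClosure ℚ_[ℓ])) : Prop :=
  ∀ f : MvPolynomial (ι × ι) (AlgebraicClosure ℚ_[ℓ]),
    (∃ Δ : Subgroup Γ, Δ.FiniteIndex ∧ ∀ s ∈ Δ,
      aeval (fun q : ι × ι => algebraMap ℚ_[ℓ] (AlgebraicClosure ℚ_[ℓ]) (ρ s q.1 q.2)) f = 0) →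
    aeval (fun q : ι × ι => g q.1 q.2) f = 0

/-- The Mumford-Tate conjecture: the two groups agree over `ℚ_ℓ`. -/
def MumfordTateConjecture (h : ℂ → Matrix ι ι ℂ) (ρ : Γ →* Matrix ι ι ℚ_[ℓ]) : Prop :=
  ∀ g : Matrix ι ι (AlgebraicClosure ℚ_[ℓ]), g.det ≠ 0 → (InMonodromy ρ g ↔ InMumfordTate h g)

end groups

variable {κ : Type} [Fintype κ] [DecidableEq κ] {n : ℕ}

/-- A rational Hodge structure on `ℚ^κ`: the projections `e (a, b)` to the pieces of type `(a, b)`
of `ℂ^κ`; they are exchanged by complex conjugation, and the pieces of every weight are defined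
over `ℚ`. -/
structure RationalHodgeStructure (κ : Type) [Fintype κ] [DecidableEq κ] where
  /-- the types which occur -/
  types : Finset (ℤ × ℤ)
  /-- the projections -/
  e : ℤ × ℤ → Matrix κ κ ℂ
  mul : ∀ a ∈ types, ∀ b ∈ types, e a * e b = if a = b then e a else 0
  sum : ∑ a ∈ types, e a = 1
  conj : ∀ a ∈ types, a.swap ∈ types ∧ (e a).map (starRingEnd ℂ) = e a.swap
  weight : ∀ w : ℤ, ∃ P : Matrix κ κ ℚ,
    ∑ a ∈ types with a.1 + a.2 = w, e a = P.map (algebraMap ℚ ℂ)

/-- The action of `ℂ^×`: multiplication by `z ^ (-a) * conj z ^ (-b)` on the piece of type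
`(a, b)`. -/
def RationalHodgeStructure.h (V : RationalHodgeStructure κ) (z : ℂ) : Matrix κ κ ℂ :=
  ∑ a ∈ V.types, (z ^ (-a.1) * starRingEnd ℂ z ^ (-a.2)) • V.e a

/-- The operator which is `a - b` on the piece of type `(a, b)`. -/
def RationalHodgeStructure.X (V : RationalHodgeStructure κ) : Matrix κ κ ℂ :=
  ∑ a ∈ V.types, ((a.1 - a.2 : ℤ) : ℂ) • V.e a

/-- The Lie algebra of the Mumford-Tate group of `V` has only the Hodge types `(-1,1)`, `(0,0)`,
`(1,-1)`: the eigenvalues of the commutator with `V.X` on it are `-2`, `0`, `2`. -/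
def RationalHodgeStructure.AbelianType (V : RationalHodgeStructure κ) : Prop :=
  ∀ y ∈ lieMumfordTate V.h, ⁅V.X, ⁅V.X, ⁅V.X, y⁆⁆⁆ = (4 : ℂ) • ⁅V.X, y⁆

/-- The action of `ℂ^×` on `T`: multiplication by `conj z / z`, `1`, `z / conj z` on the parts where
`T.x` is `1`, `0`, `-1`. -/
def hodgeT (T : HS n) (z : ℂ) : Matrix (Fin n) (Fin n) ℂ :=
  1 + ((starRingEnd ℂ z / z - 1) / 2) • (T.x * T.x + T.x) +
    ((z / starRingEnd ℂ z - 1) / 2) • (T.x * T.x - T.x)

/-- The action of `ℂ^×` on `V ⊕ T`. -/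
def hodge (V : RationalHodgeStructure κ) (T : HS n) (z : ℂ) :
    Matrix (κ ⊕ Fin n) (κ ⊕ Fin n) ℂ :=
  fromBlocks (V.h z) 0 0 (hodgeT T z)

/-- An `ℓ`-adic integral matrix as a matrix over `ℚ_ℓ`. -/
def rat {ℓ : ℕ} [Fact ℓ.Prime] (g : Matrix (Fin n) (Fin n) ℤ_[ℓ]) :
    Matrix (Fin n) (Fin n) ℚ_[ℓ] :=
  g.map (algebraMap ℤ_[ℓ] ℚ_[ℓ])

/-- The representation `α ⊕ β` of the Galois group on `V ⊕ T`. -/
def galois {ℓ : ℕ} [Fact ℓ.Prime] {Γ : Type} [Group Γ] (α : Γ →* Matrix κ κ ℚ_[ℓ])
    (β : Γ →* Matrix (Fin n) (Fin n) ℤ_[ℓ]) :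
    Γ →* Matrix (κ ⊕ Fin n) (κ ⊕ Fin n) ℚ_[ℓ] where
  toFun σ := fromBlocks (α σ) 0 0 (rat (β σ))
  map_one' := (Pool.Agent.Y95.MT.tot α β).map_one
  map_mul' := (Pool.Agent.Y95.MT.tot α β).map_mul

/-- the absolute Galois group of `K`, with its profinite (Krull) topology -/
abbrev AbsoluteGaloisGroup (K : Type) [Field K] : Type := Gal(AlgebraicClosure K/K)

/-- `σ` is an (arithmetic) Frobenius element at the prime `v` of the number field `K`: for some prime
`Q` of the algebraic closure above `v` it acts on the residue field as `x ↦ x ^ N(v)` -/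
def IsFrobenius {K : Type} [Field K] [NumberField K] (v : HeightOneSpectrum (𝓞 K))
    (σ : AbsoluteGaloisGroup K) : Prop :=
  ∃ Q : Ideal (𝓞 (AlgebraicClosure K)), Q.IsMaximal ∧
    Q.comap (algebraMap (𝓞 K) (𝓞 (AlgebraicClosure K))) = v.asIdeal ∧
    ∀ x : 𝓞 (AlgebraicClosure K), σ • x - x ^ Ideal.absNorm v.asIdeal ∈ Q

/-- `β` is the representation on `T`: it is continuous and preserves the form of `T`, and for all
`v ∉ S` which are prime to `ℓ` the characteristic polynomial of (the image under `s` of) the geometric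
Frobenius elements `σ⁻¹` (`σ` arithmetic) at `v` on `T` is `P v` -/
def IsSystem {K : Type} [Field K] [NumberField K] {Γ : Type} [Group Γ] [TopologicalSpace Γ]
    (s : AbsoluteGaloisGroup K →* Γ) (T : HS n) (S : Set (HeightOneSpectrum (𝓞 K)))
    (P : HeightOneSpectrum (𝓞 K) → Polynomial ℚ) (ℓ : ℕ) [Fact ℓ.Prime]
    (β : Γ →* Matrix (Fin n) (Fin n) ℤ_[ℓ]) : Prop :=
  Continuous β ∧
    (∀ σ, (rat (β σ))ᵀ * T.Q.map (algebraMap ℚ ℚ_[ℓ]) * rat (β σ) =
      T.Q.map (algebraMap ℚ ℚ_[ℓ])) ∧
    ∀ v ∉ S, (ℓ : 𝓞 K) ∉ v.asIdeal → ∀ σ : AbsoluteGaloisGroup K, IsFrobenius v σ →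
      (rat (β (s σ⁻¹))).charpoly = (P v).map (algebraMap ℚ ℚ_[ℓ])

/-- at the place `v` of good reduction some root `x` of `P v` has no positive power in the
multiplicative group generated by the roots of `R`, the characteristic polynomial of Frobenius at
`v` on `V` -/
def IndependentRoot {K : Type} [Field K] [NumberField K] (S : Set (HeightOneSpectrum (𝓞 K)))
    (P : HeightOneSpectrum (𝓞 K) → Polynomial ℚ) (v : HeightOneSpectrum (𝓞 K))
    (R : Polynomial ℚ) : Prop :=
  v ∉ S ∧ ∃ x : ℂˣ, Polynomial.aeval (x : ℂ) (P v) = 0 ∧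
    ∀ m : ℕ, 0 < m → x ^ m ∉ Subgroup.closure {y : ℂˣ | Polynomial.aeval (y : ℂ) R = 0}

/-- the roots of `P v` are simple, and there are no relations of the form `x w = z y`, `x ≠ y`, between
four of them, except for `z = x`, `w = y` and for `z y = w x = 1` -/
def IsGenericPlace {K : Type} [Field K] [NumberField K]
    (S : Set (HeightOneSpectrum (𝓞 K))) (P : HeightOneSpectrum (𝓞 K) → Polynomial ℚ)
    (v : HeightOneSpectrum (𝓞 K)) : Prop :=
  v ∉ S ∧ (P v).Separable ∧ ∀ x y z w : ℂ, Polynomial.aeval x (P v) = 0 →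
    Polynomial.aeval y (P v) = 0 → Polynomial.aeval z (P v) = 0 → Polynomial.aeval w (P v) = 0 →
    x ≠ y → x * w = z * y → (z = x ∧ w = y) ∨ (z * y = 1 ∧ w * x = 1)

/-- the roots of `P v` are simple, and different roots have different `k`-th powers for all `k > 0` -/
def IsRegularPlace {K : Type} [Field K] [NumberField K]
    (S : Set (HeightOneSpectrum (𝓞 K))) (P : HeightOneSpectrum (𝓞 K) → Polynomial ℚ)
    (v : HeightOneSpectrum (𝓞 K)) : Prop :=
  v ∉ S ∧ (P v).Separable ∧ ∀ k : ℕ, 0 < k → ∀ x y : ℂ,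
    Polynomial.aeval x (P v) = 0 → Polynomial.aeval y (P v) = 0 → x ^ k = y ^ k → x = y

/-- the splitting field of `Q` in the algebraic closure of `ℚ` -/
def splittingField (Q : Polynomial ℚ) : Set (AlgebraicClosure ℚ) :=
  (IntermediateField.adjoin ℚ {x : AlgebraicClosure ℚ | Polynomial.aeval x Q = 0} :
    IntermediateField ℚ (AlgebraicClosure ℚ))

/-- `R` is a set of roots of `Q` which is stable under `w` -/
def IsStableSet (w : AbsoluteGaloisGroup ℚ) (Q : Polynomial ℚ) (R : Set (AlgebraicClosure ℚ)) :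
    Prop :=
  (∀ x ∈ R, Polynomial.aeval x Q = 0) ∧ ∀ x ∈ R, w x ∈ R

/-- the set `A` of prime numbers has natural density zero -/
def HasDensityZero (A : Set ℕ) : Prop :=
  Tendsto (fun n : ℕ => (Nat.card {ℓ : ℕ // ℓ ≤ n ∧ ℓ ∈ A} : ℝ) / (Nat.primeCounting n : ℝ))
    atTop (𝓝 0)

/-- **The Mumford-Tate conjecture for `V ⊕ T` is equivalent to the conjecture for `V` at 100 percent
of the primes `ℓ`, for `V` of abelian type and `T` of even rank.** -/
theorem result (T : HS n)
    -- the Hodge structures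
    (hEnd : ∀ A : Matrix (Fin n) (Fin n) ℚ,
      A.map (fun a : ℚ => (a : ℂ)) * T.x = T.x * A.map (fun a : ℚ => (a : ℂ)) →
      ∃ c : ℚ, A = c • (1 : Matrix (Fin n) (Fin n) ℚ))
    (p q : ℕ) (htr : (T.x * T.x).trace = 2 * (p : ℂ)) (hn : n = 2 * p + q)
    (hp : 2 ≤ p) (hpq : 2 * p ^ 2 * (p ^ 2 + 1) < (q - 2 * p) * (q + p))
    (V : RationalHodgeStructure κ) (hV : V.AbelianType)
    -- the Galois group
    (K : Type) [Field K] [NumberField K] (Γ : Type) [Group Γ] [TopologicalSpace Γ]
    [IsTopologicalGroup Γ] [CompactSpace Γ] (s : AbsoluteGaloisGroup K →* Γ) (hs : Continuous s)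
    (S : Set (HeightOneSpectrum (𝓞 K))) (hS : S.Finite)
    (P : HeightOneSpectrum (𝓞 K) → Polynomial ℚ)
    (α : ∀ (ℓ : ℕ) [Fact ℓ.Prime], Γ →* Matrix κ κ ℚ_[ℓ])
    (β : ∀ (ℓ : ℕ) [Fact ℓ.Prime], Γ →* Matrix (Fin n) (Fin n) ℤ_[ℓ])
    (hsys : ∀ (ℓ : ℕ) [Fact ℓ.Prime], IsSystem s T S P ℓ (β ℓ))
    -- the places
    (v₀ : HeightOneSpectrum (𝓞 K)) (hv₀ : IsGenericPlace S P v₀)
    (m : ℕ) (u : Fin (m + 1) → HeightOneSpectrum (𝓞 K)) (hu : ∀ i, IsRegularPlace S P (u i))
    (hd : ∀ (g : AbsoluteGaloisGroup ℚ) (d : ℕ), 0 < d → d < n →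
      ∃ (v : HeightOneSpectrum (𝓞 K)) (w : AbsoluteGaloisGroup ℚ), IsRegularPlace S P v ∧
        (∀ x, (∀ i, x ∈ splittingField (P (u i))) → w x = g x) ∧
        ∀ R, IsStableSet w (P v) R → R.ncard ≠ d)
    (hfix : ∀ g : AbsoluteGaloisGroup ℚ,
      ∃ (v : HeightOneSpectrum (𝓞 K)) (w : AbsoluteGaloisGroup ℚ), IsRegularPlace S P v ∧
        (∀ x, (∀ i, x ∈ splittingField (P (u i))) → w x = g x) ∧
        ∃ x : AlgebraicClosure ℚ, Polynomial.aeval x (P v) = 0 ∧ w x = x)
    (v₂ : HeightOneSpectrum (𝓞 K)) (R₂ : Polynomial ℚ) (hv₂ : IndependentRoot S P v₂ R₂)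
    (hα : ∀ (ℓ : ℕ) [Fact ℓ.Prime], (ℓ : 𝓞 K) ∉ v₂.asIdeal → ∀ σ : AbsoluteGaloisGroup K,
      IsFrobenius v₂ σ → (α ℓ (s σ⁻¹)).charpoly = R₂.map (algebraMap ℚ ℚ_[ℓ])) :
    HasDensityZero {ℓ | ∃ _ : Fact ℓ.Prime,
      ¬ (MumfordTateConjecture (hodge V T) (galois (α ℓ) (β ℓ)) ↔
        MumfordTateConjecture V.h (α ℓ))} := by
  have hB : T.Big (Pool.Agent.R932.one1 n) (fun _ => p) (fun _ => q) := by
    refine ⟨fun a b hab => absurd rfl hab, fun a b hab => absurd rfl hab, fun A hA => ?_,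
      fun i => ?_, fun i => ?_, fun i => Or.inr ⟨by omega, hpq⟩⟩
    · obtain ⟨c, hc⟩ := hEnd A hA
      exact ⟨fun _ => c, by rw [hc, Matrix.smul_one_eq_diagonal]⟩
    · rw [← htr, Matrix.trace]
      refine Finset.sum_congr ?_ fun _ _ => rfl
      ext a
      simp [Subsingleton.elim (0 : Fin 1) i]
    · have h1 : (Finset.univ.filter fun a : Fin n => Pool.Agent.R932.one1 n a = i) =
          Finset.univ := by
        ext a
        simp [Subsingleton.elim (0 : Fin 1) i]
      rw [h1, Finset.card_univ, Fintype.card_fin, hn]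
  have hrep : ∀ (ℓ : ℕ) [Fact ℓ.Prime], Pool.Agent.R932.RepT s T S P ℓ (β ℓ) := fun ℓ _ =>
    ⟨(hsys ℓ).1, (hsys ℓ).2.1, (hsys ℓ).2.2⟩
  have hsys' : ∀ (ℓ : ℕ) [Fact ℓ.Prime],
      Pool.Agent.Y142.SS.Sys K n ℓ ((Pool.Agent.R932.qrep (β ℓ)).comp s) S P := fun ℓ _ =>
    ⟨((hrep ℓ).orthogonal hs).1, fun v hv hvℓ σ hσ =>
      ((hrep ℓ).orthogonal hs).2.2.2.2 v hv hvℓ σ hσ⟩
  have hnice : ∀ v, IsRegularPlace S P v → Pool.Agent.Y142.ZS.NiceP S P v := fun v hv =>
    Pool.Agent.Y142.SS.nice_of_complexA _ hsys' hv.1 hv.2.1 hv.2.2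
  have hLf : ∀ (i : Fin (m + 1)) (x : AlgebraicClosure ℚ),
      x ∈ Pool.Agent.Y142.ZI.Lf (P (u i)) → x ∈ splittingField (P (u i)) := by
    intro i x hx
    have h2 : (P (u i)).rootSet (AlgebraicClosure ℚ) =
        {x : AlgebraicClosure ℚ | Polynomial.aeval x (P (u i)) = 0} := by
      ext y
      exact Polynomial.mem_rootSet_of_ne (hu i).2.1.ne_zero
    unfold Pool.Agent.Y142.ZI.Lf at hx
    rw [h2] at hx
    exact hx
  have hmem : ∀ (g w : AbsoluteGaloisGroup ℚ),
      (∀ x, (∀ i, x ∈ splittingField (P (u i))) → w x = g x) →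
      w⁻¹ * g ∈ Subgroup.closure (⋃ i, Pool.Agent.Y142.SS.Fix (P (u i))) := by
    intro g w hw
    refine Pool.Agent.Y142.SS.field_mem _ (fun i => (hu i).2.1.ne_zero) fun x hx => ?_
    rw [AlgEquiv.mul_apply, ← hw x fun i => hLf i x (hx i), ← AlgEquiv.mul_apply, inv_mul_cancel,
      AlgEquiv.one_apply]
  have hgen : Pool.Agent.Y142.ZS.GenP S P (fun _ => 1) v₀ := by
    refine Pool.Agent.Y142.SU.gen_of_complexU hv₀.1
      (Pool.Agent.Y142.SS.monic_of_sysA _ hsys' hv₀.1).1 one_ne_zero hv₀.2.1 ?_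
    intro x y z w hx hy hz hw hxy hxw
    rcases hv₀.2.2 x y z w hx hy hz hw hxy hxw with h | h
    · exact Or.inl h
    · exact Or.inr (by simpa using h)
  have hone : ∀ (ℓ : ℕ) [Fact ℓ.Prime],
      Continuous (1 : Γ →* Matrix (Fin 0) (Fin 0) ℚ_[ℓ]) ∧
        (Set.range (1 : Γ →* Matrix (Fin 0) (Fin 0) ℚ_[ℓ])).Finite := fun ℓ _ =>
    ⟨continuous_const, Set.toFinite _⟩
  obtain ⟨hv₂S, x, hx, hxm⟩ := hv₂
  refine Pool.Agent.R932.density_sum hB (fun _ => hp)
    ⟨V.types, V.e, V.mul, V.sum, V.conj, V.weight⟩ hV α β hrep ?_ hv₂S hα hx hxm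
  refine Pool.Agent.R932.mt_even (κ := Fin 0) (by omega) hB hS hs
    (fun (ℓ : ℕ) [Fact ℓ.Prime] => (1 : Γ →* Matrix (Fin 0) (Fin 0) ℚ_[ℓ])) hone β hrep hgen u
    (fun i => hnice _ (hu i)) ?_ ?_
  · intro g d hd0 hdn
    obtain ⟨v, w, hv, hw, hR⟩ := hd g d hd0 hdn
    exact ⟨v, hnice v hv, w, fun R h1 h2 => hR R ⟨h1, h2⟩, hmem g w hw⟩
  · intro g
    obtain ⟨v, w, hv, hw, x, hx, hwx⟩ := hfix g
    exact ⟨v, hnice v hv, w, ⟨x, hx, hwx⟩, hmem g w hw⟩

end

end Pool.Agent.Results.MP_c1bb77_ag.SumsDensityOneEven
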